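import Mathlib
import Pool.Agent.H3.Simp.Par

/-!
# Simplices of every dimension with three quarters of all face contents rational

The vertices are the origin and vectors with the inner products `1 / (1 - a i * a j)`, where
`a 0 = 0` and all `1 - a i ^ 2` are squares.
-/

set_option autoImplicit false

namespace Pool.Agent.Results.MP_0b6f5b_nt.FaceDensity

open Pool.Agent.H3.Simp

/-- The `k`-dimensional content of the simplex with the vertices `x 0, ..., x k`. -/
noncomputable def content {n k : ℕ} (x : Fin (k + 1) → EuclideanSpace ℝ (Fin n)) : ℝ :=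
  Real.sqrt (Matrix.det (Matrix.of (fun i j : Fin k =>
    inner ℝ (x i.succ - x 0) (x j.succ - x 0)))) / (k.factorial : ℝ)

theorem content_of_sq {n k : ℕ} (x : Fin (k + 1) → EuclideanSpace ℝ (Fin n)) {r : ℚ}
    (h : gdet x = (r : ℝ) ^ 2) : ∃ q : ℚ, (q : ℝ) = content x := by
  refine ⟨|r| / k.factorial, ?_⟩
  have h2 : content x = Real.sqrt (gdet x) / (k.factorial : ℝ) := rfl
  rw [h2, h, Real.sqrt_sq_eq_abs]
  push_cast
  rfl

theorem gdet_pos {n k : ℕ} (x : Fin (k + 1) → EuclideanSpace ℝ (Fin n))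
    (h : AffineIndependent ℝ x) : 0 < gdet x := by
  have h1 : LinearIndependent ℝ fun i : Fin k => x i.succ - x 0 := by
    rw [affineIndependent_iff_linearIndependent_vsub ℝ x 0] at h
    refine h.comp (fun i : Fin k => (⟨i.succ, Fin.succ_ne_zero i⟩ : {j : Fin (k + 1) // j ≠ 0}))
      fun i j hij => ?_
    exact Fin.succ_injective _ (congrArg Subtype.val hij)
  exact (Matrix.posDef_gram_of_linearIndependent h1).det_pos

theorem content_sq {n k : ℕ} (x : Fin (k + 1) → EuclideanSpace ℝ (Fin n))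
    (h : AffineIndependent ℝ x) : content x ^ 2 = gdet x / (k.factorial : ℝ) ^ 2 := by
  have h2 : content x = Real.sqrt (gdet x) / (k.factorial : ℝ) := rfl
  rw [h2, div_pow, Real.sq_sqrt (gdet_pos x h).le]

/-- The product over a set of vertices is close to `0`. -/
theorem norm_prod_pa {l : ℕ} [Fact l.Prime] {M : ℕ} (hM : l ∣ M) :
    ∀ {k : ℕ} (g : Fin (k + 1) → ℕ),
      ‖(((∏ i, pa M (g i) : ℚ)) : ℚ_[l])‖ < ‖(2 : ℚ_[l])‖ := by
  have h2 : ‖(2 : ℚ_[l])‖ ≤ 1 := by
    have := Padic.norm_int_le_one (p := l) 2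
    exact_mod_cast this
  have h0 : (0 : ℝ) < ‖(2 : ℚ_[l])‖ := norm_pos_iff.2 two_ne_zero
  have hs : ∀ i : ℕ, ‖((pa M i : ℚ) : ℚ_[l])‖ < ‖(2 : ℚ_[l])‖ := by
    intro i
    rcases norm_pa hM i with h | h
    · exact h
    · rw [h, Rat.cast_zero, norm_zero]
      exact h0
  intro k g
  rw [Fin.prod_univ_succ, Rat.cast_mul, norm_mul]
  have h1 : ‖(((∏ i : Fin k, pa M (g i.succ) : ℚ)) : ℚ_[l])‖ ≤ 1 := by
    rw [Rat.cast_prod, norm_prod]
    exact Finset.prod_le_one (fun i _ => norm_nonneg _) fun i _ => ((hs _).le.trans h2)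
  calc ‖((pa M (g 0) : ℚ) : ℚ_[l])‖ * ‖(((∏ i : Fin k, pa M (g i.succ) : ℚ)) : ℚ_[l])‖
      ≤ ‖((pa M (g 0) : ℚ) : ℚ_[l])‖ * 1 := mul_le_mul_of_nonneg_left h1 (norm_nonneg _)
    _ < ‖(2 : ℚ_[l])‖ := by rw [mul_one]; exact hs _

/-- In every dimension `n + 1`, and for every finite set `S` of natural numbers, there is a simplex
with rational vertices such that all faces which contain one of the first two vertices have
rational contents and such that the squares of the contents of all faces are rational and are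
squares in `ℚ_[l]` for all primes `l` in `S`. -/
theorem result (n : ℕ) (S : Finset ℕ) :
    ∃ p : Fin (n + 2) → EuclideanSpace ℝ (Fin (n + 1)), AffineIndependent ℝ p ∧
      (∀ i j, ∃ c : ℚ, p i j = (c : ℝ)) ∧
      ∀ (k : ℕ) (f : Fin (k + 1) → Fin (n + 2)), Function.Injective f →
        ((∃ i, f i = 0 ∨ f i = 1) → ∃ q : ℚ, (q : ℝ) = content (p ∘ f)) ∧
        ∃ c : ℚ, (c : ℝ) = content (p ∘ f) ^ 2 ∧
          ∀ (l : ℕ) [Fact l.Prime], l ∈ S → IsSquare (c : ℚ_[l]) := by
  set M : ℕ := 2 * ∏ l ∈ S.filter Nat.Prime, l with hMdef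
  have hprod : 0 < ∏ l ∈ S.filter Nat.Prime, l :=
    Finset.prod_pos fun l hl => (Finset.mem_filter.1 hl).2.pos
  have hM : 2 ≤ M := by omega
  have hA := pa_adm hM
  refine ⟨vp (pa M) (pq M) n, affInd_vp hA n, ?_, ?_⟩
  · intro i j
    refine Fin.cases ?_ (fun i => ?_) i
    · exact ⟨0, by simp [vp_zero]⟩
    · exact ⟨_, by rw [vp_succ]; rfl⟩
  · intro k f hf
    have hcs : content (vp (pa M) (pq M) n ∘ f) ^ 2 =
        gdet (vp (pa M) (pq M) n ∘ f) / (k.factorial : ℝ) ^ 2 :=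
      content_sq _ ((affInd_vp hA n).comp_embedding ⟨f, hf⟩)
    by_cases h01 : ∃ i, f i = 0 ∨ f i = 1
    · obtain ⟨r, hr⟩ := face_good hA n f hf h01
      refine ⟨fun _ => content_of_sq _ hr, (r / k.factorial) ^ 2, ?_, fun l _ _ => ?_⟩
      · rw [hcs, hr]
        push_cast
        rw [div_pow]
      · rw [Rat.cast_pow]
        exact ⟨_, pow_two _⟩
    · refine ⟨fun h => absurd h h01, ?_⟩
      push Not at h01
      obtain ⟨r, hr⟩ := face_gen hA n f hf fun i => (h01 i).1
      refine ⟨(r / k.factorial) ^ 2 *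
        (1 - (∏ i, pa M ((f i).pred (h01 i).1)) ^ 2), ?_, fun l _ hl => ?_⟩
      · rw [hcs, hr]
        push_cast
        ring
      · rw [Rat.cast_mul, Rat.cast_pow, Rat.cast_sub, Rat.cast_one, Rat.cast_pow]
        have hd : l ∣ M := dvd_mul_of_dvd_right
          (Finset.dvd_prod_of_mem _ (Finset.mem_filter.2 ⟨hl, Fact.out⟩)) 2
        exact IsSquare.mul ⟨_, pow_two _⟩ (isSquare_padic
          (norm_prod_pa hd (fun i : Fin (k + 1) => (((f i).pred (h01 i).1 : Fin (n + 1)) : ℕ))))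

end Pool.Agent.Results.MP_0b6f5b_nt.FaceDensity
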