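import Mathlib
import Pool.Agent.H3.Simp.Ortho
import Pool.Agent.H3.Simp.Dup

/-!
# Infinitely many four-dimensional orthoschemes with at most one irrational content
-/

set_option autoImplicit false

namespace Pool.Agent.Results.MP_0b6f5b_nt.OrthoFour

open Pool.Agent.H3.Simp

/-- The `k`-dimensional content of the simplex with the vertices `x 0, ..., x k`. -/
noncomputable def content {n k : ℕ} (x : Fin (k + 1) → EuclideanSpace ℝ (Fin n)) : ℝ :=
  Real.sqrt (Matrix.det (Matrix.of (fun i j : Fin k =>
    inner ℝ (x i.succ - x 0) (x j.succ - x 0)))) / (k.factorial : ℝ)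

theorem content_of_sq {n k : ℕ} (x : Fin (k + 1) → EuclideanSpace ℝ (Fin n)) {r : ℚ}
    (h : gdet x = (r : ℝ) ^ 2) : ∃ q : ℚ, (q : ℝ) = content x := by
  refine ⟨|r| / k.factorial, ?_⟩
  have h2 : content x = Real.sqrt (gdet x) / (k.factorial : ℝ) := rfl
  rw [h2, h, Real.sqrt_sq_eq_abs]
  push_cast
  rfl

theorem dist_po {s w : ℚ} (hw : s ^ 2 - 147744025 = w ^ 2) (i j : Fin 5) :
    dist (po w i) (po w j) ^ 2 =
      ((AA s i + AA s j - 2 * AA s (min i j) : ℚ) : ℝ) := by
  rw [dist_eq_norm, ← real_inner_self_eq_norm_sq, inner_sub_left, inner_sub_right,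
    inner_sub_right, inner_po hw, inner_po hw, inner_po hw, inner_po hw, min_self, min_self,
    min_comm j i]
  push_cast
  ring

theorem orth_po (w : ℚ) (i j : Fin 4) (hij : i ≠ j) :
    inner ℝ (po w i.succ - po w i.castSucc) (po w j.succ - po w j.castSucc) = 0 := by
  rw [PiLp.inner_apply, Fin.sum_univ_four]
  simp only [RCLike.inner_apply, conj_trivial]
  fin_cases i <;> fin_cases j <;>
    first
      | (exact absurd rfl hij)
      | (simp [po, xx, Fin.lt_def])

/-- There are infinitely many pairwise non-similar four-dimensional orthoschemes such that the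
contents of all faces other than the edge between the first and the last vertex are rational. -/
theorem result : Set.Infinite {t : ℝ | ∃ p : Fin 5 → EuclideanSpace ℝ (Fin 4),
    AffineIndependent ℝ p ∧
    (∀ i j : Fin 4, i ≠ j → inner ℝ (p i.succ - p i.castSucc) (p j.succ - p j.castSucc) = 0) ∧
    dist (p 1) (p 4) = t * dist (p 0) (p 1) ∧
    ∀ (k : ℕ) (f : Fin (k + 1) → Fin 5), Function.Injective f → Set.range f ≠ {0, 4} →
      ∃ q : ℚ, (q : ℝ) = content (p ∘ f)} := by
  choose s u w hs0 hw0 hu hw S R hS hR hsSR using dup_rat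
  refine Set.infinite_of_injective_forall_mem (f := fun n => (s n : ℝ) / 5460) ?_ ?_
  · intro m n hmn
    have h1 : (s m : ℝ) = s n := (div_left_inj' (by norm_num : (5460 : ℝ) ≠ 0)).1 hmn
    have h2 : s m = s n := by exact_mod_cast h1
    refine dup_inj (hS m) (hR m) (hS n) (hR n) ?_
    rw [← hsSR, ← hsSR, h2]
  · intro n
    refine ⟨po (w n), affInd_po (hw0 n), orth_po (w n), ?_, ?_⟩
    · have h1 : dist (po (w n) 0) (po (w n) 1) = 5460 := by
        have h := dist_po (hw n) 0 1
        have e : AA (s n) 0 + AA (s n) 1 - 2 * AA (s n) (min 0 1) = 5460 ^ 2 := by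
          rw [show min (0 : Fin 5) 1 = 0 from rfl]
          norm_num [AA]
        rw [e] at h
        refine (pow_left_inj₀ dist_nonneg (by norm_num) two_ne_zero).1 (h.trans ?_)
        push_cast
        rfl
      have h2 : dist (po (w n) 1) (po (w n) 4) = s n := by
        have h := dist_po (hw n) 1 4
        have e : AA (s n) 1 + AA (s n) 4 - 2 * AA (s n) (min 1 4) = (s n) ^ 2 := by
          rw [show min (1 : Fin 5) 4 = 1 from rfl]
          simp [AA]
          ring
        rw [e] at h
        refine (pow_left_inj₀ dist_nonneg ?_ two_ne_zero).1 (h.trans ?_)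
        · exact_mod_cast (hs0 n).le
        · push_cast
          rfl
      rw [h1, h2]
      ring
    · intro k f hf h04
      obtain ⟨r, hr⟩ := gdet_po (hu n) (hw n) f hf h04
      exact content_of_sq _ hr

end Pool.Agent.Results.MP_0b6f5b_nt.OrthoFour
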