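import Pool.Agent.H92.Simp.Count

/-!
# Symmetries and edge lengths of rational simplices
-/

set_option autoImplicit false

namespace Pool.Agent.Results.MP_0b6f5b_nt.SymmetryStructure

open Pool.Agent.H92.Simp

/-- Let `p 0, ..., p n` be the vertices of a rational `n`-simplex.

* Every permutation of the vertices that preserves the distances is an involution, so that the
  symmetry group is an elementary abelian `2`-group.
* If these permutations act transitively on the vertices, then `n + 1` is a power of two.
* There are at least `log₂ (n + 1)` distinct edge lengths.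
* The `q`-adic absolute values of the edge lengths form an ultrametric for `q = 2` and for every
  prime `q` with `q % 4 = 3`; no triangle is `2`-adically equilateral and no tetrahedron is
  `3`-adically equilateral. -/
theorem result {n : ℕ} (p : Fin (n + 1) → EuclideanSpace ℝ (Fin n)) (hp : IsRationalSimplex p) :
    (∀ σ : Equiv.Perm (Fin (n + 1)), IsSymm p σ → σ * σ = 1) ∧
    ((∀ i j, ∃ σ : Equiv.Perm (Fin (n + 1)), IsSymm p σ ∧ σ i = j) → ∃ k : ℕ, n + 1 = 2 ^ k) ∧
    n + 1 ≤ 2 ^ (Finset.univ.offDiag.image
      (fun e : Fin (n + 1) × Fin (n + 1) => dist (p e.1) (p e.2))).card ∧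
    ∃ l : Fin (n + 1) → Fin (n + 1) → ℚ, (∀ i j, (l i j : ℝ) = dist (p i) (p j)) ∧
      (∀ q : ℕ, q.Prime → (q = 2 ∨ q % 4 = 3) → ∀ i j k,
        padicNorm q (l i k) ≤ max (padicNorm q (l i j)) (padicNorm q (l j k))) ∧
      (∀ i j k, i ≠ j → j ≠ k → i ≠ k →
        ¬ (padicNorm 2 (l i j) = padicNorm 2 (l j k) ∧
          padicNorm 2 (l j k) = padicNorm 2 (l i k))) ∧
      (∀ f : Fin 4 → Fin (n + 1), Function.Injective f →
        ¬ ∃ r : ℚ, ∀ a b, a ≠ b → padicNorm 3 (l (f a) (f b)) = r) := by
  obtain ⟨l, hl⟩ := exists_len hp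
  exact ⟨fun σ hσ => symm_sq hp hσ, transitive_card hp, card_lengths hp, l, hl,
    fun q hq hq4 i j k => len_norm hp hl hq hq4 i j k,
    fun i j k hij hjk hik h => len_two hp hl hij hjk hik h.1 h.2,
    fun f hf => len_three hp hl f hf⟩

end Pool.Agent.Results.MP_0b6f5b_nt.SymmetryStructure
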